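import Pool.Agent.MP_c69980_ag.H43.Spec9
import Pool.Agent.MP_c69980_ag.S68.GKsub

/-!
Independence of the products of translated sections.
-/

set_option autoImplicit false

namespace Pool.Agent.MP_c69980_ag.H43

open H60 Finset

namespace IndPA

lemma both {E A B : Type} [AddCommGroup E] [AddCommGroup A] [AddCommGroup B] (φ : E →+ A)
    (ψ : E →+ B) {x y : E} (hx : φ x ≠ 0) (hy : ψ y ≠ 0) : ∃ z, φ z ≠ 0 ∧ ψ z ≠ 0 := by
  by_cases h1 : ψ x = 0
  · by_cases h2 : φ y = 0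
    · exact ⟨x + y, by rwa [map_add, h2, add_zero], by rwa [map_add, h1, zero_add]⟩
    · exact ⟨y, h2, hy⟩
  · exact ⟨x, hx, h1⟩

lemma form {M : ℕ} {Ω : Type} [Field Ω] [Algebra ℂ Ω] {x : Fin M → ℂ} {y : Fin M → Ω}
    (hx : x ≠ 0) (hy : y ≠ 0) : ∃ l : Fin M → ℂ, l ⬝ᵥ x ≠ 0 ∧ ∑ c, l c • y c ≠ 0 := by
  obtain ⟨c, hc⟩ := Function.ne_iff.1 hx
  obtain ⟨c', hc'⟩ := Function.ne_iff.1 hy
  exact both (E := Fin M → ℂ) ⟨⟨fun l => l ⬝ᵥ x, by simp⟩, fun a b => add_dotProduct a b x⟩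
    ⟨⟨fun l => ∑ c, l c • y c, by simp⟩, fun a b => by simp [add_smul, sum_add_distrib]⟩
    (x := Pi.single c 1) (y := Pi.single c' 1) (by simpa using hc)
    (by simpa [Pi.single_apply, ite_smul] using hc')

lemma mono {k Ω : Type} [Field k] [Field Ω] [Algebra k Ω] {n : ℕ} {x : Fin n → Ω}
    (hx : AlgebraicIndependent k x) :
    LinearIndependent k fun m : Fin n → ℕ => ∏ i, x i ^ m i := by
  have h := (((MvPolynomial.basisMonomials (Fin n) k).linearIndependent).map'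
    (MvPolynomial.aeval x : MvPolynomial (Fin n) k →ₐ[k] Ω).toLinearMap
    (LinearMap.ker_eq_bot.2 hx)).comp _ Finsupp.equivFunOnFinite.symm.injective
  refine (congrArg (fun v : (Fin n → ℕ) → Ω => LinearIndependent k v) (funext fun m => ?_)).mp h
  simp [MvPolynomial.aeval_monomial, Finsupp.prod_fintype]

lemma low {Ω ι κ : Type} [Field Ω] [DecidableEq κ] (s : Finset (ι × κ)) (Y : ι × κ → PowerSeries Ω)
    (W : κ → PowerSeries Ω) (ω : κ → ℕ) (hW : ∀ p ∈ s, (W p.2).order = ω p.2)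
    (inj : ∀ p ∈ s, ∀ p' ∈ s, ω p.2 = ω p'.2 → p.2 = p'.2) (h0 : ∑ p ∈ s, Y p * W p.2 = 0)
    (hs : s.Nonempty) :
    ∃ p ∈ s, ∑ p' ∈ s with p'.2 = p.2, PowerSeries.constantCoeff (Y p') = 0 := by
  obtain ⟨p, hp, hm⟩ := s.exists_min_image (fun p => ω p.2) hs
  refine ⟨p, hp, ?_⟩
  obtain ⟨h1, h2⟩ := PowerSeries.order_eq_nat.1 (hW p hp)
  have h3 := congrArg (PowerSeries.coeff (ω p.2)) h0
  rw [map_sum, map_zero] at h3
  refine (mul_eq_zero.1 (?_ : _ * PowerSeries.coeff (ω p.2) (W p.2) = 0)).resolve_right h1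
  rw [← h3, sum_mul, sum_filter]
  refine sum_congr rfl fun p' hp' => ?_
  split_ifs with e
  · rw [e, PowerSeries.coeff_mul, sum_eq_single (0, ω p.2)]
    · simp
    · intro q hq hne
      have := mem_antidiagonal.1 hq
      rw [h2 q.2 (by
        by_contra hh
        exact hne (Prod.ext (by simp only; omega) (by simp only; omega))), mul_zero]
    · simp
  · refine (PowerSeries.coeff_of_lt_order _ (lt_of_lt_of_le ?_ (PowerSeries.le_order_mul _ _))).symm
    refine lt_of_lt_of_le ?_ le_add_self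
    rw [hW p' hp', Nat.cast_lt]
    exact lt_of_le_of_ne (hm p' hp') fun h => e (inj p hp p' hp' h).symm

lemma digits {n B : ℕ} {e e' : Fin n → ℕ} (h : ∀ j, e j < B) (h' : ∀ j, e' j < B)
    (H : ∑ j : Fin n, B ^ (j : ℕ) * e j = ∑ j : Fin n, B ^ (j : ℕ) * e' j) : e = e' := by
  have : (fun j => (⟨e j, h j⟩ : Fin B)) = fun j => ⟨e' j, h' j⟩ := by
    refine finFunctionFinEquiv.injective (Fin.ext ?_)
    simp only [finFunctionFinEquiv_apply, mul_comm _ (B ^ _)]
    exact H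
  exact funext fun j => congrArg Fin.val (congrFun this j)

section Gr
variable {P A : Type} [CommRing P] [CommRing A] {O : Subring P} (Φ : O →+* A)

/-- The graph of a homomorphism defined on a subring. -/
def Gr (y : P) (z : A) : Prop := ∃ h, Φ ⟨y, h⟩ = z

variable {Φ} {y y' : P} {z z' : A}

lemma Gr.add (h : Gr Φ y z) (h' : Gr Φ y' z') : Gr Φ (y + y') (z + z') :=
  let ⟨a, e⟩ := h; let ⟨a', e'⟩ := h'; ⟨add_mem a a', by rw [← e, ← e', ← map_add]; rfl⟩

lemma Gr.mul (h : Gr Φ y z) (h' : Gr Φ y' z') : Gr Φ (y * y') (z * z') :=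
  let ⟨a, e⟩ := h; let ⟨a', e'⟩ := h'; ⟨mul_mem a a', by rw [← e, ← e', ← map_mul]; rfl⟩

lemma gr_one : Gr Φ 1 1 := ⟨one_mem _, map_one Φ⟩

lemma gr_zero : Gr Φ 0 0 := ⟨zero_mem _, map_zero Φ⟩

lemma Gr.eq_zero (h : Gr Φ 0 z) : z = 0 := let ⟨_, e⟩ := h; e ▸ map_zero Φ

lemma Gr.pow (h : Gr Φ y z) (n : ℕ) : Gr Φ (y ^ n) (z ^ n) := by
  induction n with
  | zero => simpa using gr_one
  | succ n ih => simpa [pow_succ] using ih.mul h

lemma Gr.sum {ι : Type} (s : Finset ι) {y : ι → P} {z : ι → A} (h : ∀ i ∈ s, Gr Φ (y i) (z i)) :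
    Gr Φ (∑ i ∈ s, y i) (∑ i ∈ s, z i) := by
  classical
  induction s using Finset.induction_on with
  | empty => simpa using gr_zero
  | insert i s hi ih =>
    rw [sum_insert hi, sum_insert hi]
    exact (h i (mem_insert_self _ _)).add (ih fun j hj => h j (mem_insert_of_mem hj))

lemma Gr.prod {ι : Type} (s : Finset ι) {y : ι → P} {z : ι → A} (h : ∀ i ∈ s, Gr Φ (y i) (z i)) :
    Gr Φ (∏ i ∈ s, y i) (∏ i ∈ s, z i) := by
  classical
  induction s using Finset.induction_on with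
  | empty => simpa using gr_one
  | insert i s hi ih =>
    rw [prod_insert hi, prod_insert hi]
    exact (h i (mem_insert_self _ _)).mul (ih fun j hj => h j (mem_insert_of_mem hj))

lemma Gr.aeval [Algebra ℂ P] [Algebra ℂ A] {ι : Type} {y : ι → P} {z : ι → A}
    (hc : ∀ c, Gr Φ (algebraMap ℂ P c) (algebraMap ℂ A c)) (h : ∀ i, Gr Φ (y i) (z i))
    (H : MvPolynomial ι ℂ) : Gr Φ (MvPolynomial.aeval y H) (MvPolynomial.aeval z H) := by
  induction H using MvPolynomial.induction_on with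
  | C c => simpa using hc c
  | add p q hp hq => simpa using hp.add hq
  | mul_X p i hp => simpa using hp.mul (h i)

end Gr

lemma tot_eq {K Ω : Type} [Field K] [Field Ω] {V : ValuationSubring K} (τ : V →+* Ω) {x : K}
    (h : x ∈ V) : tot τ x = τ ⟨x, h⟩ := dif_pos h

lemma cc_aeval {Ω ι : Type} [Field Ω] [Algebra ℂ Ω] (z : ι → PowerSeries Ω) (H : MvPolynomial ι ℂ) :
    PowerSeries.constantCoeff (MvPolynomial.aeval z H) =
      MvPolynomial.aeval (fun i => PowerSeries.constantCoeff (z i)) H := by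
  induction H using MvPolynomial.induction_on with
  | C c => simp [PowerSeries.algebraMap_apply]
  | add p q hp hq => simp [hp, hq]
  | mul_X p i hp => simp [hp]

end IndPA

open IndPA in
theorem sIndP (h1 : SDom) (h2 : SJet) (h3 : STen) (h4 : SAddP) : SIndP := by
  intro t a M w Θ PP K _ _ u F r lam d f β V y q l₀ Ω _ _ τ₀ τ T H g1 gk bx hD hI hT hH
  classical
  obtain ⟨on0, onj, dom⟩ := h1 t a M w Θ PP K u F r lam d f β V y q l₀ Ω τ₀ τ gk bx hD hI
  choose S dd ee hS hS0 using fun j => gk.sub.ex Ω _ _ on0 (onj j)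
  have t0 : Θ 0 ≠ 0 := fun e => by
    obtain ⟨b, -, hb⟩ := g1.blk 0 none
    exact hb (congrFun e b)
  choose l l1 l2 using fun j => form t0 (hS0 j)
  choose b hb using fun j => h4 t a M w Θ PP K u F (r + 1) lam d f _ (dj d j) (T j) (l j) gk bx
    (fun i => by
      unfold dj
      split_ifs
      · exact Or.inr ⟨_, rfl⟩
      · exact Or.inl rfl) (hT j) (l1 j)
  obtain ⟨σ, hσ⟩ := dom _ l (fun j => ⟨S j, dd j, ee j, hS j, rfl⟩) l2
  refine ⟨l, b, σ, hb, linearIndependent_iff'.2 fun s g hg => ?_⟩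
  by_contra hne
  set s' := s.filter fun p => g p ≠ 0 with hs'
  have hs : s'.Nonempty := by
    push Not at hne
    obtain ⟨p, p1, p2⟩ := hne
    exact ⟨p, mem_filter.2 ⟨p1, p2⟩⟩
  rw [← sum_filter_of_ne (p := fun p => g p ≠ 0) fun p _ e e' => e (by rw [e', zero_smul]),
    ← hs'] at hg
  choose η η1 η2 π π1 π2 using fun j => (hD j).2.jet
  have cV : ∀ j c, algebraMap ℂ K c ∈ V j := fun j c => (hD j).1.fV _ (F.algebraMap_mem c)
  have π0 : ∀ j, π j ≠ 0 := fun j e => by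
    have := π2 j
    rw [e, map_zero, map_zero] at this
    exact zero_ne_one this
  have v0 : ∀ j, 0 < (V j).valuation (π j) := fun j =>
    zero_lt_iff.2 (((V j).valuation.ne_zero_iff).2 (π0 j))
  have jet := fun j n hn => h2 K (V j) (η j) (π j) Ω (τ j) n (hD j).2.dvr (cV j) (η2 j) (π1 j)
    (π2 j) (hI.ker j) hn
  have ex : ∀ j x, x ≠ 0 → x ∈ V j → ∃ e : ℕ, (V j).valuation x = (V j).valuation (π j) ^ e :=
    fun j x x0 hx => by
      obtain ⟨_, -, -, e⟩ := jet j 1 one_pos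
      obtain ⟨e, e1, -⟩ := e ⟨x, hx⟩ fun e => x0 (congrArg Subtype.val e)
      exact ⟨e, e1⟩
  have pol : ∀ j x, ∃ N : ℕ, ∀ N', N ≤ N' → π j ^ N' * x ∈ V j := fun j x => by
    have πV : π j ∈ V j := ((V j).valuation_le_one_iff _).1 (π1 j).le
    rcases (V j).mem_or_inv_mem x with hx | hx
    · exact ⟨0, fun N' _ => mul_mem (pow_mem πV _) hx⟩
    by_cases x0 : x = 0
    · exact ⟨0, fun N' _ => by rw [x0, mul_zero]; exact zero_mem _⟩
    obtain ⟨e, he⟩ := ex j _ (inv_ne_zero x0) hx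
    refine ⟨e, fun N' hN => ?_⟩
    obtain ⟨k, rfl⟩ := Nat.exists_eq_add_of_le' hN
    rw [pow_add, mul_assoc]
    refine mul_mem (pow_mem πV _) (((V j).valuation_le_one_iff _).1 (le_of_eq ?_))
    rw [map_mul, map_pow, ← he, ← map_mul, inv_mul_cancel₀ x0, map_one]
  choose N0 hN0 using pol
  set N : ℕ := s'.sup fun p => univ.sup fun j => N0 j (H j (p.2 j)) with hNdef
  have hV : ∀ p ∈ s', ∀ j, π j ^ N * H j (p.2 j) ∈ V j := fun p hp j => hN0 j _ N
    ((le_sup (f := fun j => N0 j (H j (p.2 j))) (mem_univ j)).trans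
      (le_sup (f := fun p : (Fin ((r + 1) * (r + 1)) → ℕ) × (Fin (r + 1) → ℕ) =>
        univ.sup fun j => N0 j (H j (p.2 j))) hp))
  have h0 : ∀ j n, π j ^ N * H j n ≠ 0 := fun j n =>
    mul_ne_zero (pow_ne_zero _ (π0 j)) ((hH j).1 n)
  have ex' : ∀ j n, ∃ e : ℕ, π j ^ N * H j n ∈ V j →
      (V j).valuation (π j ^ N * H j n) = (V j).valuation (π j) ^ e := fun j n => by
    by_cases hx : π j ^ N * H j n ∈ V j
    · obtain ⟨e, he⟩ := ex j _ (h0 j n) hx
      exact ⟨e, fun _ => he⟩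
    · exact ⟨0, fun h => absurd h hx⟩
  choose E hE using ex'
  set B : ℕ := (s'.sup fun p => univ.sup fun j => E j (p.2 j)) + 1 with hBdef
  have hB : ∀ p ∈ s', ∀ j, E j (p.2 j) < B := fun p hp j => Nat.lt_succ_of_le
    ((le_sup (f := fun j => E j (p.2 j)) (mem_univ j)).trans
      (le_sup (f := fun p : (Fin ((r + 1) * (r + 1)) → ℕ) × (Fin (r + 1) → ℕ) =>
        univ.sup fun j => E j (p.2 j)) hp))
  choose J J1 J2 J3 using fun j : Fin (r + 1) => jet j (B ^ (j : ℕ)) (pow_pos (Nat.succ_pos _) _)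
  let Bo : Option (Fin (r + 1)) → Subring K := fun o => match o with
    | none => ⊤
    | some j => (V j).toSubring
  let τo : ∀ o, Bo o →+* PowerSeries Ω := fun o => match o with
    | none => PowerSeries.C.comp (τ₀.toRingHom.comp (⊤ : Subring K).subtype)
    | some j => J j
  obtain ⟨O, Φ, hΦ⟩ := h3 K F (r + 1) (r + 1) d T Bo (fun o x hx => match o with
      | none => Subring.mem_top x
      | some j => (hD j).1.fV x hx) (PowerSeries Ω) τo bx.cst bx.com hT (fun o x hx => match o with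
      | none => rfl
      | some j => by
        have e := J2 j ⟨x, (hD j).1.fV x hx⟩ (η1 j x hx)
        rw [← tot_eq, hI.cF j x hx] at e
        exact e)
  have gC : ∀ x, Gr Φ (MvPowerSeries.C x) (PowerSeries.C (τ₀ x)) := fun x => hΦ none ⟨x, trivial⟩
  have gT : ∀ j x (hx : x ∈ V j), Gr Φ (T j x) (J j ⟨x, hx⟩) := fun j x hx => hΦ (some j) ⟨x, hx⟩
  have gc : ∀ c : ℂ, Gr Φ (algebraMap ℂ _ c) (algebraMap ℂ _ c) := fun c => by
    have := gC (algebraMap ℂ K c)
    rwa [τ₀.commutes, ← MvPowerSeries.algebraMap_apply, ← PowerSeries.algebraMap_apply] at this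
  have uV : ∀ j c, co (β j) u (c, none) ∈ V j := fun j c => (hD j).1.cV _
  let Nn := fun j => sb (S j) (MvPowerSeries.C ∘ u) fun c => T j (co (β j) u (c, none))
  let Nn' := fun j => sb (S j) (fun c => PowerSeries.C (τ₀ (u c))) fun c => J j ⟨_, uV j c⟩
  have gN : ∀ j c, Gr Φ (Nn j c) (Nn' j c) := fun j c => Gr.aeval gc (fun i => match i with
    | .inl c => gC _
    | .inr c => gT j _ _) _
  have gD : ∀ j, Gr Φ (∑ c, l j c • Nn j c) (∑ c, l j c • Nn' j c) := fun j =>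
    Gr.sum _ fun c _ => by
      rw [Algebra.smul_def, Algebra.smul_def]
      exact (gc _).mul (gN j c)
  have cN : ∀ j c, PowerSeries.constantCoeff (Nn' j c) =
      sb (S j) (τ₀ ∘ u) (fun c => tot (τ j) (co (β j) u (c, none))) c := fun j c => by
    simp only [Nn', sb, cc_aeval]
    congr 2
    funext i
    rcases i with c | c
    · simp
    · simp [J1, tot_eq (τ j) (uV j c)]
  have cD : ∀ j, PowerSeries.constantCoeff (∑ c, l j c • Nn' j c) =
      ∑ c, l j c • sb (S j) (τ₀ ∘ u) (fun c => tot (τ j) (co (β j) u (c, none))) c := fun j => by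
    rw [map_sum]
    refine sum_congr rfl fun c _ => ?_
    rw [Algebra.smul_def, Algebra.smul_def, map_mul, cN, PowerSeries.algebraMap_apply,
      PowerSeries.constantCoeff_C]
  have eN : ∀ j c, Nn j c = (∑ c, l j c • Nn j c) * b j c := fun j c => by
    have u0 := ((hD j).1.ch none).2
    have e : ∀ c, sb (S j) (MvPowerSeries.C ∘ u) (T j ∘ u) c = T j (u (β j none)) ^ ee j * Nn j c :=
      fun c => by
        have := GKsubAux.scale ((hS j).1 c) 1 (T j (u (β j none))) (MvPowerSeries.C ∘ u)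
          fun c => T j (co (β j) u (c, none))
        simp only [one_mul, one_pow, ← map_mul, co, mul_div_cancel₀ _ u0] at this
        exact this
    have e2 := (hb j).eq _ _ _ (hS j) c
    simp only [e, ← mul_smul_comm, ← mul_sum, mul_assoc] at e2
    exact (((Ne.isUnit u0).map (T j)).pow _).mul_left_cancel e2
  set A : ℕ := s'.sup fun p => univ.sup fun i => p.1 i with hAdef
  have hA : ∀ p ∈ s', ∀ i, p.1 i ≤ A := fun p hp i =>
    (le_sup (f := fun i => p.1 i) (mem_univ i)).trans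
      (le_sup (f := fun p : (Fin ((r + 1) * (r + 1)) → ℕ) × (Fin (r + 1) → ℕ) =>
        univ.sup fun i => p.1 i) hp)
  let W : (Fin (r + 1) → ℕ) → PowerSeries Ω := fun n =>
    ∏ j, if h : π j ^ N * H j (n j) ∈ V j then J j ⟨_, h⟩ else 0
  have rel : ∑ p ∈ s', (PowerSeries.C (τ₀ (g p)) * ∏ i, Nn' (σ i).1 (σ i).2 ^ p.1 i *
      (∑ c, l (σ i).1 c • Nn' (σ i).1 c) ^ (A - p.1 i)) * W p.2 = 0 := by
    have e : ∑ p ∈ s', (MvPowerSeries.C (g p : K) * ∏ i, Nn (σ i).1 (σ i).2 ^ p.1 i *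
        (∑ c, l (σ i).1 c • Nn (σ i).1 c) ^ (A - p.1 i)) * ∏ j, T j (π j ^ N * H j (p.2 j)) = 0 := by
      rw [← mul_zero ((∏ i, (∑ c, l (σ i).1 c • Nn (σ i).1 c) ^ A) * ∏ j, T j (π j ^ N)), ← hg,
        mul_sum]
      refine sum_congr rfl fun p hp => ?_
      have e1 : ∏ i, Nn (σ i).1 (σ i).2 ^ p.1 i * (∑ c, l (σ i).1 c • Nn (σ i).1 c) ^ (A - p.1 i) =
          (∏ i, (∑ c, l (σ i).1 c • Nn (σ i).1 c) ^ A) * ∏ i, b (σ i).1 (σ i).2 ^ p.1 i := by
        rw [← prod_mul_distrib]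
        refine prod_congr rfl fun i _ => ?_
        rw [eN (σ i).1 (σ i).2, mul_pow, mul_right_comm, ← pow_add, Nat.add_sub_cancel' (hA p hp i)]
      have sm : ∀ (c : F) (x : PW (Fin (r + 1) × Fin (r + 1)) K),
          c • x = MvPowerSeries.C (c : K) * x := fun c x => MvPowerSeries.smul_eq_C_mul x c
      rw [e1, sm]
      simp only [map_mul, prod_mul_distrib]
      ring
    refine Gr.eq_zero (Φ := Φ) (e ▸ Gr.sum _ fun p hp => ?_)
    refine ((gC _).mul (Gr.prod _ fun i _ => ((gN _ _).pow _).mul ((gD _).pow _))).mul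
      (Gr.prod _ fun j _ => ?_)
    rw [dif_pos (hV p hp j)]
    exact gT j _ _
  have pinj : ∀ j (e e' : ℕ), (V j).valuation (π j) ^ e = (V j).valuation (π j) ^ e' → e = e' :=
    fun j e e' h => (pow_right_strictAnti₀ (v0 j) (π1 j)).injective h
  obtain ⟨p, hp, hz⟩ := low s' _ W (fun n => ∑ j : Fin (r + 1), B ^ (j : ℕ) * E j (n j))
    (fun p hp => by
      rw [PowerSeries.order_prod, Nat.cast_sum]
      refine sum_congr rfl fun j _ => ?_
      rw [dif_pos (hV p hp j)]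
      obtain ⟨e, e1, e2⟩ := J3 j ⟨_, hV p hp j⟩ fun e => h0 j _ (congrArg Subtype.val e)
      rw [e2, pinj j _ _ (e1.symm.trans (hE j _ (hV p hp j)))])
    (fun p hp p' hp' e => funext fun j => by
      have e1 := congrFun (digits (hB p hp) (hB p' hp') e) j
      have e2 := hE j _ (hV p hp j)
      rw [e1, ← hE j _ (hV p' hp' j), map_mul, map_mul] at e2
      exact (hH j).2.injective (mul_left_cancel₀
        (((V j).valuation.ne_zero_iff).2 (pow_ne_zero _ (π0 j))) e2)) rel hs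
  let g' : (Fin ((r + 1) * (r + 1)) → ℕ) → F.map τ₀ := fun m =>
    ⟨τ₀ (g (m, p.2)), _, (g (m, p.2)).2, rfl⟩
  have hz' := linearIndependent_iff'.1 (mono hσ) ((s'.filter fun p' => p'.2 = p.2).image Prod.fst)
    g' (by
      rw [sum_image fun x hx x' hx' e =>
        Prod.ext e ((mem_filter.1 hx).2.trans (mem_filter.1 hx').2.symm)]
      refine mul_left_cancel₀ (prod_ne_zero_iff.2 fun i (_ : i ∈ univ) =>
        pow_ne_zero A (l2 (σ i).1)) ?_
      rw [mul_zero, ← hz, mul_sum]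
      refine sum_congr rfl fun p' hp' => ?_
      obtain ⟨e1, e2⟩ := mem_filter.1 hp'
      rw [map_mul, map_prod, PowerSeries.constantCoeff_C, Algebra.smul_def, mul_left_comm,
        ← prod_mul_distrib]
      congr 1
      · change τ₀ (g (p'.1, p.2)) = _
        rw [← e2]
      · refine prod_congr rfl fun i _ => ?_
        rw [map_mul, map_pow, map_pow, cN, cD, div_pow, pow_sub₀ _ (l2 _) (hA p' e1 i)]
        ring) p.1 (mem_image_of_mem _ (mem_filter.2 ⟨hp, rfl⟩))
  refine (mem_filter.1 hp).2 (Subtype.ext (τ₀.injective ?_))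
  rw [ZeroMemClass.coe_zero, map_zero]
  exact congrArg Subtype.val hz'

end Pool.Agent.MP_c69980_ag.H43
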